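import Pool.Agent.H221R3.MD.StmtsP

/-!
Project MD (helper221), TaskP5: the explicit kernel and the reduction of its positivity to TaskP4.
-/

set_option autoImplicit false

namespace Pool.Agent.H166R3.MD

open Finset Pool.Agent.H221R3.MD

/-- indicator of the vertex `0` -/
def e0 (u : Fin 10) : ℝ := if u = 0 then 1 else 0

/-- indicator of the vertices `4, ..., 9` -/
def gg (u : Fin 10) : ℝ := if 4 ≤ u then 1 else 0

/-- the normalising constant -/
noncomputable def ZZ : ℝ := 10 ^ 15 + 29 / 50 - 6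

/-- the kernel -/
noncomputable def KK (u v : Fin 10) : ℝ :=
  (10 ^ 14 + 29 / 50 * (e0 u * e0 v) - gg u * gg v - 31 / 20 * (e0 u * gg v + gg u * e0 v)) / ZZ

theorem ZZ_pos : 0 < ZZ := by
  unfold ZZ
  norm_num

theorem dbl (p q c : Fin 10 → ℝ) : ∑ u, ∑ v, (p u * q v) * (c u * c v) =
    (∑ u, p u * c u) * (∑ v, q v * c v) := by
  rw [Finset.sum_mul_sum]
  refine sum_congr rfl fun u _ => sum_congr rfl fun v _ => ?_
  ring

theorem sum_e0 (c : Fin 10 → ℝ) : ∑ u, e0 u * c u = c 0 := by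
  simp [e0]

theorem sum_gg (c : Fin 10 → ℝ) : ∑ u, gg u * c u = c 4 + c 5 + c 6 + c 7 + c 8 + c 9 := by
  simp only [Fin.sum_univ_succ, Fin.sum_univ_zero]
  have h : ∀ u : Fin 10, gg u = if 4 ≤ u then 1 else 0 := fun u => rfl
  simp only [h]
  have e4 : ¬ ((4 : Fin 10) ≤ 0) := by decide
  have e5 : ¬ ((4 : Fin 10) ≤ 1) := by decide
  have e6 : ¬ ((4 : Fin 10) ≤ 2) := by decide
  have e7 : ¬ ((4 : Fin 10) ≤ 3) := by decide
  show (if (4 : Fin 10) ≤ 0 then (1 : ℝ) else 0) * c 0 +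
    ((if (4 : Fin 10) ≤ 1 then (1 : ℝ) else 0) * c 1 +
    ((if (4 : Fin 10) ≤ 2 then (1 : ℝ) else 0) * c 2 +
    ((if (4 : Fin 10) ≤ 3 then (1 : ℝ) else 0) * c 3 +
    ((if (4 : Fin 10) ≤ 4 then (1 : ℝ) else 0) * c 4 +
    ((if (4 : Fin 10) ≤ 5 then (1 : ℝ) else 0) * c 5 +
    ((if (4 : Fin 10) ≤ 6 then (1 : ℝ) else 0) * c 6 +
    ((if (4 : Fin 10) ≤ 7 then (1 : ℝ) else 0) * c 7 +
    ((if (4 : Fin 10) ≤ 8 then (1 : ℝ) else 0) * c 8 +
    ((if (4 : Fin 10) ≤ 9 then (1 : ℝ) else 0) * c 9 + 0))))))))) = _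
  rw [if_neg e4, if_neg e5, if_neg e6, if_neg e7, if_pos (by decide), if_pos (by decide),
    if_pos (by decide), if_pos (by decide), if_pos (by decide), if_pos (by decide)]
  ring

theorem sum_all (c : Fin 10 → ℝ) : ∑ u, c u = c 0 + c 1 + c 2 + c 3 + c 4 + c 5 + c 6 + c 7 +
    c 8 + c 9 := by
  simp only [Fin.sum_univ_succ, Fin.sum_univ_zero]
  show c 0 + (c 1 + (c 2 + (c 3 + (c 4 + (c 5 + (c 6 + (c 7 + (c 8 + (c 9 + 0))))))))) = _
  ring

/-- the constant one -/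
def oo (_ : Fin 10) : ℝ := 1

theorem sum_oo (c : Fin 10 → ℝ) : ∑ u, oo u * c u = ∑ u, c u := by
  simp [oo]

/-- bilinear expansion -/
theorem bil (c s : Fin 10 → ℝ) : ∑ u, ∑ v, KK u v * (c u * c v + s u * s v) =
    (10 ^ 14 * ((∑ u, c u) ^ 2 + (∑ u, s u) ^ 2) + 29 / 50 * (c 0 ^ 2 + s 0 ^ 2) -
      ((∑ u, gg u * c u) ^ 2 + (∑ u, gg u * s u) ^ 2) -
      31 / 10 * (c 0 * (∑ u, gg u * c u) + s 0 * (∑ u, gg u * s u))) / ZZ := by
  have h1 : ∀ u v, KK u v * (c u * c v + s u * s v) =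
      (10 ^ 14 * ((oo u * oo v) * (c u * c v)) + 10 ^ 14 * ((oo u * oo v) * (s u * s v)) +
        29 / 50 * ((e0 u * e0 v) * (c u * c v)) + 29 / 50 * ((e0 u * e0 v) * (s u * s v)) -
        (gg u * gg v) * (c u * c v) - (gg u * gg v) * (s u * s v) -
        31 / 20 * ((e0 u * gg v) * (c u * c v)) - 31 / 20 * ((e0 u * gg v) * (s u * s v)) -
        31 / 20 * ((gg u * e0 v) * (c u * c v)) - 31 / 20 * ((gg u * e0 v) * (s u * s v))) / ZZ := by
    intro u v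
    unfold KK oo
    ring
  simp_rw [h1, ← Finset.sum_div, sum_sub_distrib, sum_add_distrib, ← mul_sum]
  rw [dbl oo oo c, dbl oo oo s, dbl e0 e0 c, dbl e0 e0 s, dbl gg gg c, dbl gg gg s, dbl e0 gg c,
    dbl e0 gg s, dbl gg e0 c, dbl gg e0 s, sum_e0, sum_e0, sum_oo, sum_oo]
  ring

theorem KK_symm (u v : Fin 10) : KK u v = KK v u := by
  unfold KK
  ring

theorem e0_le (u : Fin 10) : 0 ≤ e0 u ∧ e0 u ≤ 1 := by
  unfold e0
  split_ifs <;> norm_num

theorem gg_le (u : Fin 10) : 0 ≤ gg u ∧ gg u ≤ 1 := by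
  unfold gg
  split_ifs <;> norm_num

theorem KK_nonneg (u v : Fin 10) : 0 ≤ KK u v := by
  unfold KK
  apply div_nonneg _ ZZ_pos.le
  obtain ⟨a1, a2⟩ := e0_le u
  obtain ⟨b1, b2⟩ := e0_le v
  obtain ⟨c1, c2⟩ := gg_le u
  obtain ⟨d1, d2⟩ := gg_le v
  have h1 : 0 ≤ e0 u * e0 v := mul_nonneg a1 b1
  have h2 : gg u * gg v ≤ 1 := mul_le_one₀ c2 d1 d2
  have h3 : e0 u * gg v ≤ 1 := mul_le_one₀ a2 d1 d2
  have h4 : gg u * e0 v ≤ 1 := mul_le_one₀ c2 b1 b2
  linarith [show (10 : ℝ) ≤ 10 ^ 14 by norm_num]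

theorem e0_zero : e0 0 = 1 := by
  unfold e0
  rw [if_pos rfl]

theorem gg_zero : gg 0 = 0 := by
  unfold gg
  rw [if_neg (by decide)]

theorem KK_trace : ∑ u, KK u u = 1 := by
  have h1 : ∀ u, KK u u = (10 ^ 14 + 29 / 50 * (e0 u * 1) - gg u * 1) / ZZ := by
    intro u
    unfold KK
    by_cases h : u = 0
    · subst h
      rw [e0_zero, gg_zero]
      norm_num
    · have h2 : e0 u = 0 := by
        unfold e0
        rw [if_neg h]
      rw [h2]
      unfold gg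
      split_ifs <;> norm_num
  simp_rw [h1, ← Finset.sum_div, sum_sub_distrib, sum_add_distrib, ← mul_sum]
  have h2 := sum_e0 (fun _ => 1)
  have h3 := sum_gg (fun _ => 1)
  simp only [mul_one] at h2 h3 ⊢
  rw [h2, h3]
  unfold ZZ
  simp
  norm_num

/-- the mass -/
noncomputable def CC : ℝ := (10 ^ 16 + 29 / 50 - 36 - 93 / 5) / ZZ

theorem CC_gt : 10 < CC := by
  unfold CC
  rw [lt_div_iff₀ ZZ_pos]
  unfold ZZ
  norm_num

theorem KK_mass : ∑ u, ∑ v, KK u v = CC := by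
  have h := bil (fun _ => 1) (fun _ => 0)
  have h3 := sum_gg (fun _ => 1)
  simp only [mul_one, mul_zero, add_zero, sum_const_zero] at h h3
  rw [h, h3]
  unfold CC
  congr 1
  simp
  norm_num

section angles

variable (x : Fin 10 → ℝ)

/-- the rotated angles -/
noncomputable def tt (u : Fin 10) : ℝ := ∑ s, x s * ((DT u s : ℝ) - (DT 0 s : ℝ))

theorem tt_sub (u v : Fin 10) : ∑ s, x s * ((DT u s : ℝ) - (DT v s : ℝ)) = tt x u - tt x v := by
  unfold tt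
  rw [← sum_sub_distrib]
  refine sum_congr rfl fun s _ => ?_
  ring

theorem tt_zero : tt x 0 = 0 := by
  unfold tt
  simp

theorem lin {a b c : Fin 10} (h : ∀ s, DT a s + DT 0 s = DT b s + DT c s) :
    tt x a = tt x b + tt x c := by
  unfold tt
  rw [← sum_add_distrib]
  refine sum_congr rfl fun s _ => ?_
  have h1 : (DT a s : ℝ) + (DT 0 s : ℝ) = (DT b s : ℝ) + (DT c s : ℝ) := by exact_mod_cast h s
  linear_combination (x s) * h1

theorem t7 : tt x 7 = tt x 5 + tt x 6 := lin x (by decide)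

theorem t8 : tt x 8 = tt x 4 + tt x 6 := lin x (by decide)

theorem t9 : tt x 9 = tt x 4 + tt x 5 := lin x (by decide)

theorem t123 : tt x 1 + tt x 2 + tt x 3 = tt x 4 + tt x 5 + tt x 6 := by
  unfold tt
  rw [← sum_add_distrib, ← sum_add_distrib, ← sum_add_distrib, ← sum_add_distrib]
  refine sum_congr rfl fun s _ => ?_
  have h : ∀ s, DT 1 s + DT 2 s + DT 3 s = DT 4 s + DT 5 s + DT 6 s := by decide
  have h1 : (DT 1 s : ℝ) + (DT 2 s : ℝ) + (DT 3 s : ℝ) =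
      (DT 4 s : ℝ) + (DT 5 s : ℝ) + (DT 6 s : ℝ) := by exact_mod_cast h s
  linear_combination (x s) * h1

end angles

theorem cos_pair (a φ : ℝ) : Real.cos a + Real.cos (2 * φ - a) = 2 * Real.cos (a - φ) * Real.cos φ := by
  have h1 : a = (a - φ) + φ := by ring
  have h2 : 2 * φ - a = φ - (a - φ) := by ring
  rw [h2]
  nth_rewrite 1 [h1]
  rw [Real.cos_add, Real.cos_sub φ (a - φ)]
  ring

theorem sin_pair (a φ : ℝ) : Real.sin a + Real.sin (2 * φ - a) = 2 * Real.cos (a - φ) * Real.sin φ := by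
  have h1 : a = (a - φ) + φ := by ring
  have h2 : 2 * φ - a = φ - (a - φ) := by ring
  rw [h2]
  nth_rewrite 1 [h1]
  rw [Real.sin_add, Real.sin_sub φ (a - φ)]
  ring

/-- TaskP5 -/
theorem taskP5 : TaskP5 := by
  intro P1 P2 P3 P4
  refine ⟨KK, CC, CC_gt, KK_nonneg, KK_symm, KK_trace, KK_mass, fun x => ?_⟩
  have h0 := tt_zero x
  obtain ⟨φ, hφ⟩ : ∃ φ : ℝ, tt x 4 + tt x 5 + tt x 6 = 2 * φ :=
    ⟨(tt x 4 + tt x 5 + tt x 6) / 2, by ring⟩
  have h7 : tt x 7 = 2 * φ - tt x 4 := by rw [t7, ← hφ]; ring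
  have h8 : tt x 8 = 2 * φ - tt x 5 := by rw [t8, ← hφ]; ring
  have h9 : tt x 9 = 2 * φ - tt x 6 := by rw [t9, ← hφ]; ring
  have key := P4 P1 P2 P3 (tt x 4) (tt x 5) (tt x 6) (tt x 1) (tt x 2) (tt x 3) φ _ hφ
    ((t123 x).trans hφ) rfl
  obtain ⟨r, hr⟩ : ∃ r : ℝ, r = 2 * (Real.cos (tt x 4 - φ) + Real.cos (tt x 5 - φ) +
      Real.cos (tt x 6 - φ)) := ⟨_, rfl⟩
  rw [← hr] at key
  have hc : ∑ u, gg u * Real.cos (tt x u) = r * Real.cos φ := by
    rw [sum_gg, h7, h8, h9, hr]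
    have e1 := cos_pair (tt x 4) φ
    have e2 := cos_pair (tt x 5) φ
    have e3 := cos_pair (tt x 6) φ
    linear_combination e1 + e2 + e3
  have hs : ∑ u, gg u * Real.sin (tt x u) = r * Real.sin φ := by
    rw [sum_gg, h7, h8, h9, hr]
    have e1 := sin_pair (tt x 4) φ
    have e2 := sin_pair (tt x 5) φ
    have e3 := sin_pair (tt x 6) φ
    linear_combination e1 + e2 + e3
  have hc2 : ∑ u, Real.cos (tt x u) = 1 + r * Real.cos φ +
      (Real.cos (tt x 1) + Real.cos (tt x 2) + Real.cos (tt x 3)) := by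
    rw [← hc, sum_gg, sum_all, h0, Real.cos_zero]
    ring
  have hs2 : ∑ u, Real.sin (tt x u) = r * Real.sin φ +
      (Real.sin (tt x 1) + Real.sin (tt x 2) + Real.sin (tt x 3)) := by
    rw [← hs, sum_gg, sum_all, h0, Real.sin_zero]
    ring
  have hrw : ∑ u, ∑ v, KK u v * Real.cos (∑ s, x s * ((DT u s : ℝ) - (DT v s : ℝ))) =
      ∑ u, ∑ v, KK u v * (Real.cos (tt x u) * Real.cos (tt x v) +
        Real.sin (tt x u) * Real.sin (tt x v)) := by
    refine sum_congr rfl fun u _ => sum_congr rfl fun v _ => ?_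
    rw [tt_sub, Real.cos_sub]
  rw [hrw, bil (fun u => Real.cos (tt x u)) (fun u => Real.sin (tt x u))]
  apply div_nonneg _ ZZ_pos.le
  show 0 ≤ 10 ^ 14 * ((∑ u, Real.cos (tt x u)) ^ 2 + (∑ u, Real.sin (tt x u)) ^ 2) +
    29 / 50 * (Real.cos (tt x 0) ^ 2 + Real.sin (tt x 0) ^ 2) -
    ((∑ u, gg u * Real.cos (tt x u)) ^ 2 + (∑ u, gg u * Real.sin (tt x u)) ^ 2) -
    31 / 10 * (Real.cos (tt x 0) * (∑ u, gg u * Real.cos (tt x u)) +
      Real.sin (tt x 0) * (∑ u, gg u * Real.sin (tt x u)))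
  rw [hc, hs, hc2, hs2, h0, Real.cos_zero, Real.sin_zero]
  have h1 := Real.sin_sq_add_cos_sq φ
  nlinarith [key, h1]

end Pool.Agent.H166R3.MD
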